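import Pool.Agent.Y104.WPS.Shift

/-!
# The product inequality for nonnegative combinations of powers of shifted minors
-/

set_option autoImplicit false
open MeasureTheory Matrix
open Pool.Agent.TH985.WP

namespace Pool.Agent.Y104.WPS

/-- one power for each factor -/
theorem part1 (N d : ℕ) (p : Fin d → ℕ) (hp : ∀ i, 1 ≤ p i)
    (α : ℝ) (hα : (N : ℝ) - 1 < α) (hα' : ((∑ i, p i : ℕ) : ℝ) - 1 < α)
    (S : Matrix (Fin N) (Fin N) ℝ) (hS : S.PosDef)
    (C : ∀ i, Matrix (Fin (p i)) (Fin N) ℝ)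
    (P : ∀ i, Matrix (Fin (p i)) (Fin (p i)) ℝ) (hP : ∀ i, (P i).PosSemidef)
    (ν : Fin d → ℝ) (hν : ∀ i, 0 ≤ ν i) :
        (∀ i, Integrable (fun x => (C i * symm x * (C i)ᵀ + P i).det ^ ν i) (wishart α S)) ∧
        Integrable (fun x => ∏ i, (C i * symm x * (C i)ᵀ + P i).det ^ ν i) (wishart α S) ∧
        ∏ i, ∫ x, (C i * symm x * (C i)ᵀ + P i).det ^ ν i ∂(wishart α S) ≤
          ∫ x, ∏ i, (C i * symm x * (C i)ᵀ + P i).det ^ ν i ∂(wishart α S) := by
  have : ∀ i, Nonempty (Fin (p i)) := fun i => ⟨⟨0, hp i⟩⟩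
  set D : Matrix ((i : Fin d) × Fin (p i)) (Fin N) ℝ := Matrix.of fun s x => C s.1 s.2 x with hD
  have hb : ∀ (i : Fin d) (W : Matrix (Fin N) (Fin N) ℝ),
      dblk (D * W * Dᵀ) i = C i * W * (C i)ᵀ := by
    intro i W
    ext a b
    simp [dblk, hD, Matrix.mul_apply]
  have h := wishart_shift (I := Fin d) (B := fun i => Fin (p i))
    (n := Fin N) α (by simpa using hα) (by simpa using hα') S hS D P hP ν hν
  simp only [hb] at h
  exact h

/-- nonnegative combinations of powers of shifted minors -/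
theorem cone_version (N d : ℕ) (m : Fin d → ℕ) (p : Fin d → ℕ) (q : ∀ i, Fin (m i) → ℕ)
    (hq : ∀ i k, 1 ≤ q i k) (hqp : ∀ i k, q i k ≤ p i)
    (α : ℝ) (hα : (N : ℝ) - 1 < α) (hα' : ((∑ i, p i : ℕ) : ℝ) - 1 < α)
    (S : Matrix (Fin N) (Fin N) ℝ) (hS : S.PosDef)
    (c : ∀ i, Fin (m i) → ℝ) (hc : ∀ i k, 0 ≤ c i k)
    (C : ∀ i k, Matrix (Fin (q i k)) (Fin N) ℝ)
    (P : ∀ i k, Matrix (Fin (q i k)) (Fin (q i k)) ℝ) (hP : ∀ i k, (P i k).PosSemidef)
    (ν : ∀ i, Fin (m i) → ℝ) (hν : ∀ i k, 0 ≤ ν i k) :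
    (∀ i, Integrable
      (fun x => ∑ k, c i k * (C i k * symm x * (C i k)ᵀ + P i k).det ^ ν i k)
      (wishart α S)) ∧
    Integrable
      (fun x => ∏ i, ∑ k, c i k * (C i k * symm x * (C i k)ᵀ + P i k).det ^ ν i k)
      (wishart α S) ∧
    ∏ i, ∫ x, ∑ k, c i k * (C i k * symm x * (C i k)ᵀ + P i k).det ^ ν i k ∂(wishart α S) ≤
      ∫ x, ∏ i, ∑ k, c i k * (C i k * symm x * (C i k)ᵀ + P i k).det ^ ν i k
        ∂(wishart α S) := by
  classical
  have hsum : ∀ i, ((p i : ℕ) : ℝ) ≤ ((∑ i, p i : ℕ) : ℝ) := fun i => by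
    exact_mod_cast Finset.single_le_sum (f := p) (fun j _ => Nat.zero_le _) (Finset.mem_univ i)
  have hone : ∀ i k, Integrable
      (fun x => (C i k * symm x * (C i k)ᵀ + P i k).det ^ ν i k) (wishart α S) := by
    intro i k
    have h := (part1 N 1 (fun _ => q i k) (fun _ => hq i k) α hα (by
      have h1 : ((q i k : ℕ) : ℝ) ≤ (p i : ℝ) := by exact_mod_cast hqp i k
      have h2 := hsum i
      simp only [Finset.univ_unique, Finset.sum_singleton]
      linarith) S hS (fun _ => C i k) (fun _ => P i k) (fun _ => hP i k) (fun _ => ν i k)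
      (fun _ => hν i k)).1 0
    exact h
  have hch : ∀ κ : ∀ i, Fin (m i),
      Integrable (fun x => ∏ i, (C i (κ i) * symm x * (C i (κ i))ᵀ + P i (κ i)).det ^ ν i (κ i))
        (wishart α S) ∧
      ∏ i, ∫ x, (C i (κ i) * symm x * (C i (κ i))ᵀ + P i (κ i)).det ^ ν i (κ i)
          ∂(wishart α S) ≤
        ∫ x, ∏ i, (C i (κ i) * symm x * (C i (κ i))ᵀ + P i (κ i)).det ^ ν i (κ i)
          ∂(wishart α S) := by
    intro κ
    exact (part1 N d (fun i => q i (κ i)) (fun i => hq i (κ i)) α hα (by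
      have h1 : ((∑ i, q i (κ i) : ℕ) : ℝ) ≤ ((∑ i, p i : ℕ) : ℝ) := by
        exact_mod_cast Finset.sum_le_sum fun i _ => hqp i (κ i)
      linarith) S hS (fun i => C i (κ i)) (fun i => P i (κ i)) (fun i => hP i (κ i))
      (fun i => ν i (κ i)) (fun i => hν i (κ i))).2
  have hexp : ∀ x : Sym2 (Fin N) → ℝ,
      ∏ i, ∑ k, c i k * (C i k * symm x * (C i k)ᵀ + P i k).det ^ ν i k =
        ∑ κ ∈ Fintype.piFinset (fun i => (Finset.univ : Finset (Fin (m i)))),
          (∏ i, c i (κ i)) *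
            ∏ i, (C i (κ i) * symm x * (C i (κ i))ᵀ + P i (κ i)).det ^ ν i (κ i) := by
    intro x
    rw [Finset.prod_univ_sum]
    exact Finset.sum_congr rfl fun κ _ => Finset.prod_mul_distrib
  have hint : ∀ κ : ∀ i, Fin (m i), Integrable (fun x => (∏ i, c i (κ i)) *
      ∏ i, (C i (κ i) * symm x * (C i (κ i))ᵀ + P i (κ i)).det ^ ν i (κ i))
      (wishart α S) := fun κ => (hch κ).1.const_mul _
  refine ⟨fun i => ?_, ?_, ?_⟩
  · exact integrable_finsetSum _ fun k _ => (hone i k).const_mul _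
  · simp only [hexp]
    exact integrable_finsetSum _ fun κ _ => hint κ
  · simp only [hexp]
    rw [integral_finsetSum _ fun κ _ => hint κ]
    have h1 : ∀ i, ∫ x, ∑ k, c i k * (C i k * symm x * (C i k)ᵀ + P i k).det ^ ν i k
        ∂(wishart α S) = ∑ k, c i k * ∫ x, (C i k * symm x * (C i k)ᵀ + P i k).det ^ ν i k
          ∂(wishart α S) := by
      intro i
      rw [integral_finsetSum _ fun k _ => (hone i k).const_mul _]
      exact Finset.sum_congr rfl fun k _ => integral_const_mul _ _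
    simp only [h1]
    rw [Finset.prod_univ_sum]
    refine Finset.sum_le_sum fun κ _ => ?_
    rw [Finset.prod_mul_distrib, integral_const_mul]
    exact mul_le_mul_of_nonneg_left (hch κ).2 (Finset.prod_nonneg fun i _ => hc i (κ i))

end Pool.Agent.Y104.WPS
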