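import Pool.Agent.TH985.WP.Final

/-!
# The product inequality for determinants of shifted compressions of a Wishart matrix
-/

set_option autoImplicit false
open MeasureTheory ProbabilityTheory Matrix
open scoped ENNReal

namespace Pool.Agent.Y104.WPS

open Pool.Agent.TH985.WP

section

variable {I : Type} [Fintype I] [DecidableEq I] {B : I → Type} [∀ i, Fintype (B i)]
  [∀ i, DecidableEq (B i)] {n : Type} [Fintype n] [DecidableEq n]

theorem dblk_gram' (C : Matrix ((i : I) × B i) n ℝ) (M : n → n → ℝ) (i : I) :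
    dblk (gram C M) i = colm (cw C i M) * (colm (cw C i M))ᵀ := by
  ext a b
  simp only [dblk, Pool.Agent.TH985.WP.gram, Matrix.submatrix_apply, Matrix.of_apply, Matrix.mul_apply, colm,
    transpose_apply, cw]

theorem colm_sum {J₁ J₂ B : Type} [Fintype J₁] [Fintype J₂] (w₁ : J₁ → B → ℝ)
    (w₂ : J₂ → B → ℝ) :
    colm (Sum.elim w₁ w₂) * (colm (Sum.elim w₁ w₂))ᵀ =
      colm w₁ * (colm w₁)ᵀ + colm w₂ * (colm w₂)ᵀ := by
  ext a b
  simp [colm, Matrix.mul_apply, Fintype.sum_sum_type]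

/-- the product inequality for the shifted blocks of `C M Mᵀ Cᵀ` -/
theorem muk_prod_gen [∀ i, Nonempty (B i)] {τ : Type} [Fintype τ] [DecidableEq τ]
    (C : Matrix ((i : I) × B i) n ℝ) (κ : ℝ) (hκ : -1 < κ)
    (hc : (∑ i, (Fintype.card (B i) : ℝ)) - 1 < κ + Fintype.card n)
    (A : ∀ i, τ → B i → ℝ) (ν : I → ℝ) (hν : ∀ i, 0 ≤ ν i) :
    ∏ i, ∫⁻ M, ENNReal.ofReal ((dblk (gram C M) i + colm (A i) * (colm (A i))ᵀ).det ^ ν i)
        ∂(muk n κ) ≤
      ∫⁻ M, ∏ i, ENNReal.ofReal ((dblk (gram C M) i + colm (A i) * (colm (A i))ᵀ).det ^ ν i)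
        ∂(muk n κ) := by
  have : Fact (-1 < κ) := ⟨hκ⟩
  have hcl := claim (fun i => 2 * ν i) (fun i => mul_nonneg zero_le_two (hν i)) Finset.univ
    n C (fun i hi => absurd (Finset.mem_univ i) hi)
    (κ + Fintype.card n) hc (lawA C κ) (lawA_cf C κ hκ) τ A
  have hgm : ∀ i, Measurable fun Y : B i → B i → ℝ => Gf (2 * ν i) (A i) (Matrix.of Y) := by
    intro i
    exact measurable_Gf (2 * ν i) (fun _ => A i) (fun _ _ => measurable_const)
      (fun Y => Matrix.of Y) (fun a b => by simp only [Matrix.of_apply]; fun_prop)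
  have hsum : ∀ i (M : n → n → ℝ), ∫⁻ μ, Gf (2 * ν i) (A i)
      (Matrix.of fun b a => ymat (cw C i M) μ b a) ∂(gmat n (B i)) =
      Gf (2 * ν i) (Sum.elim (A i) (cw C i M)) 0 := by
    intro i M
    rw [← Gf_sum]
    simp_rw [add_zero]
    rfl
  have hone : ∀ i, ∫⁻ y, Gf (2 * ν i) (A i) (blk y i) ∂(lawA C κ) =
      ∫⁻ M, Gf (2 * ν i) (Sum.elim (A i) (cw C i M)) 0 ∂(muk n κ) := by
    intro i
    have h1 := lawA_one C κ i _ (hgm i)
    rw [show (∫⁻ y, Gf (2 * ν i) (A i) (blk y i) ∂(lawA C κ)) =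
      ∫⁻ y, Gf (2 * ν i) (A i) (Matrix.of fun b a => y ⟨i, (b, a)⟩) ∂(lawA C κ) from rfl, h1]
    exact lintegral_congr fun M => hsum i M
  have hall : ∫⁻ y, ∏ i, Gf (2 * ν i) (A i) (blk y i) ∂(lawA C κ) =
      ∫⁻ M, ∏ i, Gf (2 * ν i) (Sum.elim (A i) (cw C i M)) 0 ∂(muk n κ) := by
    have h1 := lawA_prod C κ _ hgm
    rw [show (∫⁻ y, ∏ i, Gf (2 * ν i) (A i) (blk y i) ∂(lawA C κ)) =
      ∫⁻ y, ∏ i, Gf (2 * ν i) (A i) (Matrix.of fun b a => y ⟨i, (b, a)⟩)
        ∂(lawA C κ) from rfl, h1]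
    refine lintegral_congr fun M => ?_
    exact Finset.prod_congr rfl fun i _ => hsum i M
  simp_rw [hone] at hcl
  rw [hall] at hcl
  have hG : ∀ i (M : n → n → ℝ), Gf (2 * ν i) (Sum.elim (A i) (cw C i M)) 0 =
      Zc (B i) (2 * ν i) *
        ENNReal.ofReal ((dblk (gram C M) i + colm (A i) * (colm (A i))ᵀ).det ^ ν i) := by
    intro i M
    rw [detG _ (mul_nonneg zero_le_two (hν i)), colm_sum, ← dblk_gram', mul_comm,
      add_comm (colm (A i) * (colm (A i))ᵀ)]
    congr 3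
    ring
  simp_rw [hG] at hcl
  have hdm : ∀ i, Measurable fun M : n → n → ℝ =>
      ENNReal.ofReal ((dblk (gram C M) i + colm (A i) * (colm (A i))ᵀ).det ^ ν i) := by
    intro i
    have := measurable_det (fun M : n → n → ℝ =>
      dblk (gram C M) i + colm (A i) * (colm (A i))ᵀ) (fun a b => by
        simp only [dblk, Pool.Agent.TH985.WP.gram, Matrix.add_apply, Matrix.submatrix_apply, Matrix.of_apply,
          mulVec, dotProduct]
        fun_prop)
    exact ENNReal.measurable_ofReal.comp (this.pow_const _)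
  have hZ : ∀ i, 0 < Zc (B i) (2 * ν i) ∧ Zc (B i) (2 * ν i) < ∞ := fun i =>
    Pool.Agent.TH511.WP.Zc_pos (2 * ν i) (by have := hν i; linarith)
  have hL : ∀ i, ∫⁻ M, Zc (B i) (2 * ν i) *
      ENNReal.ofReal ((dblk (gram C M) i + colm (A i) * (colm (A i))ᵀ).det ^ ν i)
        ∂(muk n κ) =
      Zc (B i) (2 * ν i) * ∫⁻ M,
        ENNReal.ofReal ((dblk (gram C M) i + colm (A i) * (colm (A i))ᵀ).det ^ ν i)
        ∂(muk n κ) := fun i => lintegral_const_mul _ (hdm i)
  simp_rw [hL, Finset.prod_mul_distrib] at hcl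
  rw [lintegral_const_mul _ (Finset.measurable_fun_prod _ fun i _ => hdm i)] at hcl
  refine (ENNReal.mul_le_mul_iff_right ?_ ?_).1 hcl
  · exact Finset.prod_ne_zero_iff.2 fun i _ => (hZ i).1.ne'
  · exact ENNReal.prod_ne_top fun i _ => (hZ i).2.ne

theorem blk_psd (C : Matrix ((i : I) × B i) n ℝ) (M : n → n → ℝ) (P : ∀ i, Matrix (B i) (B i) ℝ)
    (hP : ∀ i, (P i).PosSemidef) (i : I) : (dblk (gram C M) i + P i).PosSemidef := by
  rw [dblk_gram']
  have := posSemidef_self_mul_conjTranspose (colm (cw C i M))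
  rw [conjTranspose_eq_transpose_of_trivial] at this
  exact this.add (hP i)

theorem moment_fin_gen (C : Matrix ((i : I) × B i) n ℝ) (κ : ℝ) (hκ : -1 < κ)
    (P : ∀ i, Matrix (B i) (B i) ℝ) (hP : ∀ i, (P i).PosSemidef)
    (ν : I → ℝ) (hν : ∀ i, 0 ≤ ν i) :
    ∫⁻ M, ∏ i, ENNReal.ofReal ((dblk (gram C M) i + P i).det ^ ν i) ∂(muk n κ) < ∞ := by
  obtain ⟨c, hc0, hc⟩ := gram_bound (K := n) C
  set c' : ℝ := ∑ i, ∑ a, ∑ b, |P i a b| with hc'
  have hc'0 : 0 ≤ c' := by positivity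
  have hPb : ∀ i a b, |P i a b| ≤ c' := by
    intro i a b
    have h1 : |P i a b| ≤ ∑ b, |P i a b| :=
      Finset.single_le_sum (f := fun b => |P i a b|) (fun b _ => abs_nonneg _) (Finset.mem_univ b)
    have h2 : ∑ b, |P i a b| ≤ ∑ a, ∑ b, |P i a b| :=
      Finset.single_le_sum (f := fun a => ∑ b, |P i a b|)
        (fun a _ => Finset.sum_nonneg fun b _ => abs_nonneg _) (Finset.mem_univ a)
    have h3 : ∑ a, ∑ b, |P i a b| ≤ c' :=
      Finset.single_le_sum (f := fun i => ∑ a, ∑ b, |P i a b|)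
        (fun i _ => Finset.sum_nonneg fun a _ => Finset.sum_nonneg fun b _ => abs_nonneg _)
        (Finset.mem_univ i)
    exact h1.trans (h2.trans h3)
  set s : ℝ := ∑ i, (Fintype.card (B i) : ℝ) * ν i with hs
  have hs0 : 0 ≤ s := Finset.sum_nonneg fun i _ => mul_nonneg (Nat.cast_nonneg _) (hν i)
  set δ : ℝ := 1 / (4 * (s + 1)) with hδ
  have hδ0 : 0 < δ := by positivity
  have hδs : δ * s ≤ 1 / 4 := by
    rw [hδ, div_mul_eq_mul_div, one_mul, div_le_iff₀ (by positivity)]
    linarith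
  set N : (n → n → ℝ) → ℝ := fun M => ∑ k, M k ⬝ᵥ M k with hN
  have hN0 : ∀ M, 0 ≤ N M := fun M => Finset.sum_nonneg fun k _ => by
    have : M k ⬝ᵥ M k = ∑ x, M k x ^ 2 := by simp [dotProduct, sq]
    rw [this]; positivity
  set K : I → ℝ := fun i => (((Fintype.card (B i)).factorial : ℝ) *
    (c / δ + c') ^ (Fintype.card (B i))) ^ ν i with hK
  have hK0 : ∀ i, 0 ≤ K i := fun i => by positivity
  have hb : ∀ i M, (dblk (gram C M) i + P i).det ^ ν i ≤
      K i * Real.exp (δ * (Fintype.card (B i) * ν i) * N M) := by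
    intro i M
    have hd0 : 0 ≤ (dblk (gram C M) i + P i).det := (blk_psd C M P hP i).det_nonneg
    have h1 : |(dblk (gram C M) i + P i).det| ≤
        (Fintype.card (B i)).factorial • (c * N M + c') ^ (Fintype.card (B i)) :=
      Matrix.det_le (abv := AbsoluteValue.abs) (fun a b => by
        show |dblk (gram C M) i a b + P i a b| ≤ _
        exact (abs_add_le _ _).trans (add_le_add (hc M _ _) (hPb i a b)))
    rw [abs_of_nonneg hd0, nsmul_eq_mul] at h1
    have h2 : c * N M + c' ≤ (c / δ + c') * Real.exp (δ * N M) := by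
      have h3 : δ * N M ≤ Real.exp (δ * N M) := by
        have := Real.add_one_le_exp (δ * N M)
        linarith
      have h3' : (1 : ℝ) ≤ Real.exp (δ * N M) := by
        have := Real.add_one_le_exp (δ * N M)
        have h0 : 0 ≤ δ * N M := mul_nonneg hδ0.le (hN0 M)
        linarith
      have h4 : c * N M = (c / δ) * (δ * N M) := by field_simp
      rw [h4, add_mul]
      refine add_le_add (mul_le_mul_of_nonneg_left h3 (by positivity)) ?_
      exact le_mul_of_one_le_right hc'0 h3'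
    have h5 : (c * N M + c') ^ (Fintype.card (B i)) ≤
        (c / δ + c') ^ (Fintype.card (B i)) * Real.exp (δ * Fintype.card (B i) * N M) := by
      have h6 := pow_le_pow_left₀ (add_nonneg (mul_nonneg hc0 (hN0 M)) hc'0) h2
        (Fintype.card (B i))
      rw [mul_pow (c / δ + c'), ← Real.exp_nat_mul] at h6
      refine h6.trans (le_of_eq ?_)
      congr 2
      ring
    have h7 : (dblk (gram C M) i + P i).det ≤ ((Fintype.card (B i)).factorial : ℝ) *
        (c / δ + c') ^ (Fintype.card (B i)) * Real.exp (δ * Fintype.card (B i) * N M) := by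
      refine h1.trans ?_
      rw [mul_assoc]
      exact mul_le_mul_of_nonneg_left h5 (Nat.cast_nonneg _)
    have h8 := Real.rpow_le_rpow hd0 h7 (hν i)
    rw [Real.mul_rpow (by positivity) (Real.exp_pos _).le, ← Real.exp_mul] at h8
    refine h8.trans (le_of_eq ?_)
    rw [hK]
    congr 2
    ring
  have hb2 : ∀ M : n → n → ℝ,
      ∏ i, ENNReal.ofReal ((dblk (gram C M) i + P i).det ^ ν i) ≤
      ENNReal.ofReal (∏ i, K i) * ENNReal.ofReal (Real.exp (-(1 / 2) *
        ∑ k, M k ⬝ᵥ ((-(1 / 2) : ℝ) • (1 : Matrix n n ℝ)) *ᵥ M k)) := by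
    intro M
    have h9 : ∏ i, ENNReal.ofReal ((dblk (gram C M) i + P i).det ^ ν i) ≤
        ∏ i, ENNReal.ofReal (K i * Real.exp (δ * (Fintype.card (B i) * ν i) * N M)) :=
      Finset.prod_le_prod' fun i _ => ENNReal.ofReal_le_ofReal (hb i M)
    refine h9.trans ?_
    rw [← ENNReal.ofReal_prod_of_nonneg (fun i _ => mul_nonneg (hK0 i) (Real.exp_pos _).le),
      ← ENNReal.ofReal_mul (Finset.prod_nonneg fun i _ => hK0 i), Finset.prod_mul_distrib,
      ← Real.exp_sum]
    refine ENNReal.ofReal_le_ofReal (mul_le_mul_of_nonneg_left ?_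
      (Finset.prod_nonneg fun i _ => hK0 i))
    rw [Real.exp_le_exp, ← Finset.sum_mul, ← Finset.mul_sum, ← hs]
    have h10 : ∑ k, M k ⬝ᵥ ((-(1 / 2) : ℝ) • (1 : Matrix n n ℝ)) *ᵥ M k =
        -(1 / 2) * N M := by
      rw [hN, Finset.mul_sum]
      refine Finset.sum_congr rfl fun k _ => ?_
      rw [Matrix.smul_mulVec, Matrix.one_mulVec, dotProduct_smul, smul_eq_mul]
    rw [h10]
    have := mul_le_mul_of_nonneg_right hδs (hN0 M)
    linarith
  have hS : (1 + (-(1 / 2) : ℝ) • (1 : Matrix n n ℝ)).PosDef := by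
    have : (1 + (-(1 / 2) : ℝ) • (1 : Matrix n n ℝ)) = (1 / 2 : ℝ) • (1 : Matrix n n ℝ) := by
      module
    rw [this]
    exact Matrix.PosDef.one.smul (by norm_num)
  refine lt_of_le_of_lt (lintegral_mono hb2) ?_
  have hqm : Measurable fun M : n → n → ℝ => ENNReal.ofReal
      (Real.exp (-(1 / 2) * ∑ k, M k ⬝ᵥ ((-(1 / 2) : ℝ) • (1 : Matrix n n ℝ)) *ᵥ M k)) := by
    have : Measurable fun M : n → n → ℝ => ∑ k, M k ⬝ᵥ
        ((-(1 / 2) : ℝ) • (1 : Matrix n n ℝ)) *ᵥ M k :=
      Finset.measurable_fun_sum _ fun k _ => (measurable_quad _).comp (measurable_pi_apply k)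
    exact ENNReal.measurable_ofReal.comp ((this.const_mul _).exp)
  rw [lintegral_const_mul _ hqm, lap_muk κ hκ _ hS]
  exact ENNReal.mul_lt_top ENNReal.ofReal_lt_top ENNReal.ofReal_lt_top

/-- compressions of Gram matrices -/
theorem comp_gram (D : Matrix ((i : I) × B i) n ℝ) (C : Matrix n n ℝ) (M : n → n → ℝ) :
    D * gram C M * Dᵀ = gram (D * C) M := by
  have h1 : gram C M = colm (fun k => C *ᵥ M k) * (colm (fun k => C *ᵥ M k))ᵀ := by
    ext a b
    simp [Pool.Agent.TH985.WP.gram, colm, Matrix.mul_apply]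
  have h2 : gram (D * C) M =
      colm (fun k => (D * C) *ᵥ M k) * (colm (fun k => (D * C) *ᵥ M k))ᵀ := by
    ext a b
    simp [Pool.Agent.TH985.WP.gram, colm, Matrix.mul_apply]
  have h3 : colm (fun k => (D * C) *ᵥ M k) = D * colm (fun k => C *ᵥ M k) := by
    ext a k
    simp only [colm, Matrix.of_apply, Matrix.mul_apply, ← Matrix.mulVec_mulVec]
    rfl
  rw [h1, h2, h3, Matrix.transpose_mul]
  simp only [Matrix.mul_assoc]

/-- **the product inequality for shifted compressions of a Wishart matrix** -/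
theorem wishart_shift [∀ i, Nonempty (B i)] (α : ℝ)
    (hα : (Fintype.card n : ℝ) - 1 < α) (hα' : (∑ i, (Fintype.card (B i) : ℝ)) - 1 < α)
    (S : Matrix n n ℝ) (hS : S.PosDef) (D : Matrix ((i : I) × B i) n ℝ)
    (P : ∀ i, Matrix (B i) (B i) ℝ) (hP : ∀ i, (P i).PosSemidef) (ν : I → ℝ)
    (hν : ∀ i, 0 ≤ ν i) :
      (∀ i, Integrable (fun x => (dblk (D * symm x * Dᵀ) i + P i).det ^ ν i) (wishart α S)) ∧
      Integrable (fun x => ∏ i, (dblk (D * symm x * Dᵀ) i + P i).det ^ ν i) (wishart α S) ∧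
      ∏ i, ∫ x, (dblk (D * symm x * Dᵀ) i + P i).det ^ ν i ∂(wishart α S) ≤
        ∫ x, ∏ i, (dblk (D * symm x * Dᵀ) i + P i).det ^ ν i ∂(wishart α S) := by
  obtain ⟨R, hR⟩ := exists_factor S hS.posSemidef
  set C := Rᵀ with hC
  have hCC : C * Cᵀ = S := by rw [hC, Matrix.transpose_transpose, hR]
  have hCu : IsUnit C.det := by
    rw [isUnit_iff_ne_zero]
    intro h0
    have := congrArg Matrix.det hCC
    rw [Matrix.det_mul, h0, zero_mul] at this
    exact hS.det_pos.ne this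
  set κ : ℝ := α - Fintype.card n with hκd
  have hκ : -1 < κ := by rw [hκd]; linarith
  have : Fact (-1 < κ) := ⟨hκ⟩
  have hW : wishart α S = (muk n κ).map (gramc C) := by
    rw [← hCC]
    exact Pool.Agent.TH384.WP.wishart_eq α hα C hCu
  have hgm : Measurable (gramc (K := n) C) :=
    Pool.Agent.TH384.WP.measurable_gramc C
  rw [hW]
  -- the shifts as Gram matrices
  have hA : ∀ i, ∃ A : B i → B i → ℝ, P i = colm A * (colm A)ᵀ := by
    intro i
    obtain ⟨Q, hQ⟩ := exists_factor (P i) (hP i)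
    refine ⟨fun k b => Q k b, ?_⟩
    rw [hQ]
    ext a b
    simp [colm, Matrix.mul_apply]
  choose A hA using hA
  set A' : ∀ i, ((i : I) × B i) → B i → ℝ := fun i x => if h : x.1 = i then A i (h ▸ x.2) else 0
    with hA'd
  have hA' : ∀ i, P i = colm (A' i) * (colm (A' i))ᵀ := by
    intro i
    rw [hA i]
    ext a b
    simp only [colm, Matrix.mul_apply, Matrix.of_apply, Matrix.transpose_apply]
    rw [Fintype.sum_sigma, Finset.sum_eq_single i]
    · simp [hA'd]
    · intro j _ hj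
      refine Finset.sum_eq_zero fun k _ => ?_
      simp [hA'd, hj]
    · intro h
      exact absurd (Finset.mem_univ i) h
  have hcomp : ∀ M : n → n → ℝ, D * symm (gramc C M) * Dᵀ = gram (D * C) M := fun M =>
    comp_gram D C M
  have hdm : ∀ i, Measurable fun x : Sym2 n → ℝ => (dblk (D * symm x * Dᵀ) i + P i).det :=
    fun i => measurable_det (fun x : Sym2 n → ℝ => dblk (D * symm x * Dᵀ) i + P i)
      (fun a b => by
        simp only [dblk, Pool.Agent.TH985.WP.symm, Matrix.add_apply, Matrix.submatrix_apply, Matrix.mul_apply,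
          Matrix.of_apply, Matrix.transpose_apply]
        fun_prop)
  have hpm : ∀ i, Measurable fun x : Sym2 n → ℝ =>
      (dblk (D * symm x * Dᵀ) i + P i).det ^ ν i := fun i => (hdm i).pow_const _
  have hPm : Measurable fun x : Sym2 n → ℝ =>
      ∏ i, (dblk (D * symm x * Dᵀ) i + P i).det ^ ν i :=
    Finset.measurable_fun_prod _ fun i _ => hpm i
  have hnn : ∀ (M : n → n → ℝ) (i : I),
      0 ≤ (dblk (D * symm (gramc C M) * Dᵀ) i + P i).det := fun M i => by
    rw [hcomp]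
    exact (blk_psd (D * C) M P hP i).det_nonneg
  have hlin : ∀ (μ : I → ℝ), (∀ i, 0 ≤ μ i) → ∀ T : Finset I,
      ∫⁻ x, ENNReal.ofReal (∏ i ∈ T, (dblk (D * symm x * Dᵀ) i + P i).det ^ μ i)
        ∂((muk n κ).map (gramc C)) =
      ∫⁻ M, ∏ i ∈ T, ENNReal.ofReal ((dblk (gram (D * C) M) i + P i).det ^ μ i)
        ∂(muk n κ) := by
    intro μ hμ T
    have hm : Measurable fun x : Sym2 n → ℝ => ENNReal.ofReal
        (∏ i ∈ T, (dblk (D * symm x * Dᵀ) i + P i).det ^ μ i) :=
      ENNReal.measurable_ofReal.comp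
        (Finset.measurable_fun_prod _ fun i _ => (hdm i).pow_const _)
    rw [lintegral_map hm hgm]
    refine lintegral_congr fun M => ?_
    rw [ENNReal.ofReal_prod_of_nonneg fun i _ => Real.rpow_nonneg (hnn M i) _]
    simp only [hcomp]
  have hfinall := moment_fin_gen (D * C) κ hκ P hP ν hν
  have hfin1 : ∀ i, ∫⁻ M, ENNReal.ofReal ((dblk (gram (D * C) M) i + P i).det ^ ν i)
      ∂(muk n κ) < ∞ := by
    intro i
    have h := moment_fin_gen (D * C) κ hκ P hP (Pi.single i (ν i)) (fun j => by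
      by_cases hj : j = i
      · subst hj; simp [hν]
      · simp [hj])
    refine lt_of_le_of_lt (le_of_eq ?_) h
    refine lintegral_congr fun M => ?_
    rw [Finset.prod_eq_single i]
    · simp
    · intro j _ hj
      simp [hj]
    · intro h; exact absurd (Finset.mem_univ i) h
  have hae : ∀ i, ∀ᵐ x ∂((muk n κ).map (gramc C)),
      0 ≤ (dblk (D * symm x * Dᵀ) i + P i).det := by
    intro i
    rw [ae_map_iff hgm.aemeasurable (measurableSet_le measurable_const (hdm i))]
    exact Filter.Eventually.of_forall fun M => hnn M i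
  have haep : ∀ i, 0 ≤ᵐ[(muk n κ).map (gramc C)]
      fun x => (dblk (D * symm x * Dᵀ) i + P i).det ^ ν i := by
    intro i
    filter_upwards [hae i] with x hx
    exact Real.rpow_nonneg hx _
  have haeP : 0 ≤ᵐ[(muk n κ).map (gramc C)]
      fun x => ∏ i, (dblk (D * symm x * Dᵀ) i + P i).det ^ ν i := by
    filter_upwards [ae_all_iff.2 hae] with x hx
    exact Finset.prod_nonneg fun i _ => Real.rpow_nonneg (hx i) _
  have hl1 : ∀ i, ∫⁻ x, ENNReal.ofReal ((dblk (D * symm x * Dᵀ) i + P i).det ^ ν i)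
      ∂((muk n κ).map (gramc C)) =
      ∫⁻ M, ENNReal.ofReal ((dblk (gram (D * C) M) i + P i).det ^ ν i) ∂(muk n κ) := by
    intro i
    have := hlin ν hν {i}
    simpa using this
  have hlP := hlin ν hν Finset.univ
  have hi1 : ∀ i, Integrable (fun x => (dblk (D * symm x * Dᵀ) i + P i).det ^ ν i)
      ((muk n κ).map (gramc C)) := by
    intro i
    refine ⟨(hpm i).aestronglyMeasurable, ?_⟩
    rw [hasFiniteIntegral_iff_ofReal (haep i), hl1 i]
    exact hfin1 i
  have hiP : Integrable (fun x => ∏ i, (dblk (D * symm x * Dᵀ) i + P i).det ^ ν i)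
      ((muk n κ).map (gramc C)) := by
    refine ⟨hPm.aestronglyMeasurable, ?_⟩
    rw [hasFiniteIntegral_iff_ofReal haeP, hlP]
    exact hfinall
  refine ⟨hi1, hiP, ?_⟩
  rw [integral_eq_lintegral_of_nonneg_ae haeP hPm.aestronglyMeasurable, hlP]
  have e1 : ∀ i, ∫ x, (dblk (D * symm x * Dᵀ) i + P i).det ^ ν i
        ∂((muk n κ).map (gramc C)) =
      (∫⁻ M, ENNReal.ofReal ((dblk (gram (D * C) M) i + P i).det ^ ν i)
        ∂(muk n κ)).toReal := by
    intro i
    rw [integral_eq_lintegral_of_nonneg_ae (haep i) (hpm i).aestronglyMeasurable, hl1 i]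
  simp_rw [e1]
  rw [← ENNReal.toReal_prod]
  refine ENNReal.toReal_mono hfinall.ne ?_
  have h := muk_prod_gen (D * C) κ hκ (by rw [hκd]; linarith) A' ν hν
  simp only [← hA'] at h
  exact h

end

end Pool.Agent.Y104.WPS
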